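import Pool.Agent.Y885.KP3

/-!
# Joint correlations of the von Mangoldt and Liouville functions, up to very few elements of arbitrary sets which
meet every interval `[x, l x]`
-/

set_option autoImplicit false

namespace Pool.Agent.Results.MP_e6fa8b_nt.ElementsOfAnySets

open Finset

/-- The Liouville function, with complex values. -/
noncomputable def lam (n : ℕ) : ℂ := (-1) ^ ArithmeticFunction.cardFactors n

/-- The sum over the `n ≤ X` with `n ≡ c (mod q)` of `θ n * ∏ j, Λ (a j * n + b j) * ∏ i ∈ I, λ (α i * n + y i)`. -/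
noncomputable def corrSum {r s : ℕ} (θ : ℕ → ℂ) (a b : Fin r → ℕ) (α y : Fin s → ℕ) (I : Finset (Fin s))
    (q c X : ℕ) : ℂ :=
  ∑ n ∈ (Icc 1 X).filter (fun n => n ≡ c [MOD q]),
    θ n * (∏ j, (ArithmeticFunction.vonMangoldt (a j * n + b j) : ℂ)) * ∏ i ∈ I, lam (α i * n + y i)

lemma vM_bound (B : ℕ) : ∃ N₁ : ℕ, ∀ N, N₁ ≤ N → ∀ a h n : ℕ, a ≤ N ^ B → h ≤ N ^ B → n ≤ B * N →
    |ArithmeticFunction.vonMangoldt (a * n + h)| ≤ Real.log N ^ 2 := by
  refine ⟨B + 3 ^ (B + 2) + 3, fun N hN a h n ha hh hn => ?_⟩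
  obtain ⟨P3, hP3⟩ : ∃ P3 : ℕ, P3 = 3 ^ (B + 2) := ⟨_, rfl⟩
  rw [← hP3] at hN
  have hN0 : (0 : ℝ) < N := by exact_mod_cast (by omega : 0 < N)
  have hlogB : ((B + 2 : ℕ) : ℝ) ≤ Real.log N := by
    rw [Real.le_log_iff_exp_le hN0]
    have h1 : Real.exp ((B + 2 : ℕ) : ℝ) ≤ (3 : ℝ) ^ (B + 2) := by
      rw [show ((B + 2 : ℕ) : ℝ) = ((B + 2 : ℕ) : ℝ) * 1 by ring, Real.exp_nat_mul]
      exact pow_le_pow_left₀ (Real.exp_pos _).le (by linarith [Real.exp_one_lt_d9]) _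
    refine h1.trans ?_
    exact_mod_cast (by rw [← hP3]; omega : 3 ^ (B + 2) ≤ N)
  have hlog1 : 0 ≤ Real.log N := le_trans (by positivity) hlogB
  rw [abs_of_nonneg ArithmeticFunction.vonMangoldt_nonneg]
  refine ArithmeticFunction.vonMangoldt_le_log.trans ?_
  have e1 : a * n + h ≤ N ^ (B + 2) := by
    calc a * n + h ≤ N ^ B * (B * N) + N ^ B := add_le_add (Nat.mul_le_mul ha hn) hh
      _ ≤ N ^ B * (B * N) + N ^ B * N := by
          apply add_le_add le_rfl (Nat.le_mul_of_pos_right _ (by omega))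
      _ = N ^ B * ((B + 1) * N) := by ring
      _ ≤ N ^ B * (N * N) := Nat.mul_le_mul_left _ (Nat.mul_le_mul_right _ (by omega))
      _ = _ := by rw [pow_add]; ring
  rcases Nat.eq_zero_or_pos (a * n + h) with h0 | h0
  · rw [h0]
    simp only [Nat.cast_zero, Real.log_zero]
    positivity
  · have e2 : Real.log ((a * n + h : ℕ) : ℝ) ≤ Real.log ((N ^ (B + 2) : ℕ) : ℝ) :=
      Real.log_le_log (by exact_mod_cast h0) (by exact_mod_cast e1)
    refine e2.trans ?_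
    rw [Nat.cast_pow, Real.log_pow, pow_two]
    exact mul_le_mul_of_nonneg_right hlogB hlog1

/-- For all `l ≥ 2`, `r`, `κ` and `U` there is a constant `C` such that for all `H` and `B` there is an `N₀` with the
following property. Let `N ≥ N₀` and `2 ^ s ≤ log ^ κ N`. Let `A 1, ..., A s` be arbitrary sets of integers each of
which contains an element of every interval `[x, l x]`, `x ≥ 1` (`C` and `N₀` do not depend on these sets), let
`0 ≤ h 1, ..., h s ≤ B N` and `α 1, ..., α s ≥ 1` be arbitrary integers. For each of at most `log ^ κ N` indices `m`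
let `a m j n + b m j` for `j < r` be arbitrary linear forms with non-negative coefficients `≤ N ^ B`, and let
`θ m : ℕ → ℂ` be an arbitrary function bounded by `1`. Then there are sets `S i` of at most `C (log log N) ^ 2` elements
of `A i`, all between `log ^ H N` and `N / log ^ H N`, such that the sums `y i` of `h i` and of the elements of `S i`
satisfy `|∑ n ≤ X, n ≡ c (q), θ m n * (∏ j, Λ (a m j * n + b m j)) * (∏ i ∈ I, λ (α i * n + y i))| ≤ N / log ^ U N` for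
all `m`, all NONEMPTY sets `I` of indices, all `q ≤ log ^ κ N`, all `c` and all `X` with `α i X ≤ B N` for `i ∈ I`. -/
theorem result (l r κ U : ℕ) (hl : 2 ≤ l) : ∃ C : ℝ, ∀ H B : ℕ, ∃ N₀ : ℕ, ∀ N : ℕ, N₀ ≤ N →
    ∀ s : ℕ, (2 : ℝ) ^ s ≤ Real.log N ^ κ →
    ∀ A : Fin s → Set ℕ, (∀ i, ∀ x : ℕ, 1 ≤ x → ∃ a ∈ A i, x ≤ a ∧ a ≤ l * x) →
    ∀ h : Fin s → ℕ, (∀ i, h i ≤ B * N) → ∀ α : Fin s → ℕ, (∀ i, 1 ≤ α i) →
    ∀ L : ℕ, (L : ℝ) ≤ Real.log N ^ κ → ∀ (a b : Fin L → Fin r → ℕ) (θ : Fin L → ℕ → ℂ),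
      (∀ m j, a m j ≤ N ^ B ∧ b m j ≤ N ^ B) → (∀ m n, ‖θ m n‖ ≤ 1) →
    ∃ S : Fin s → Finset ℕ, (∀ i, ∀ a ∈ S i, a ∈ A i ∧ Real.log N ^ H ≤ a ∧ (a : ℝ) ≤ N / Real.log N ^ H) ∧
      (∀ i, ((S i).card : ℝ) ≤ C * Real.log (Real.log N) ^ 2) ∧
      ∀ m, ∀ I : Finset (Fin s), I.Nonempty → ∀ q : ℕ, 1 ≤ q → (q : ℝ) ≤ Real.log N ^ κ → ∀ c : ℕ,
        ∀ X : ℕ, (∀ i ∈ I, α i * X ≤ B * N) →
        ‖corrSum (θ m) (a m) (b m) α (fun i => h i + ∑ a ∈ S i, a) I q c X‖ ≤ N / Real.log N ^ U := by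
  obtain ⟨C, hC⟩ := Pool.Agent.Y885.las_kptq l 1 (κ + 2 * r) U hl le_rfl Pool.Agent.Y885.laR Pool.Agent.Y885.fine_lam
  refine ⟨C, fun H B => ?_⟩
  obtain ⟨N₀, h0⟩ := hC H B
  obtain ⟨N₁, h1⟩ := vM_bound B
  refine ⟨N₀ + N₁ + 3, fun N hN s hs A hA h hh α hα L hL a b θ hab hθ => ?_⟩
  have hLog1 : 1 ≤ Real.log (N : ℝ) := by
    have h3 : (3 : ℝ) ≤ N := by exact_mod_cast (by omega : 3 ≤ N)
    rw [Real.le_log_iff_exp_le (by linarith)]
    exact (Real.exp_one_lt_d9.le.trans (by norm_num)).trans h3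
  have hκ : Real.log (N : ℝ) ^ κ ≤ Real.log (N : ℝ) ^ (κ + 2 * r) := pow_le_pow_right₀ hLog1 (by omega)
  obtain ⟨S, h2, h3, _, h4⟩ := h0 s A hA N (by omega) (hs.trans hκ) h hh L (hL.trans hκ) α
    (fun m n => θ m n * ∏ j, (ArithmeticFunction.vonMangoldt (a m j * n + b m j) : ℂ)) hα (by
      intro m n hn1 hn2
      rw [norm_mul, norm_prod]
      have e1 : ∏ i, ‖(ArithmeticFunction.vonMangoldt (a m i * n + b m i) : ℂ)‖ ≤ ∏ _i : Fin r, Real.log N ^ 2 := by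
        apply prod_le_prod (fun _ _ => norm_nonneg _)
        intro i _
        rw [Complex.norm_real, Real.norm_eq_abs]
        exact h1 N (by omega) _ _ _ (hab _ i).1 (hab _ i).2 hn2
      rw [prod_const, card_univ, Fintype.card_fin, ← pow_mul] at e1
      calc _ ≤ 1 * Real.log N ^ (2 * r) := mul_le_mul (hθ _ n) e1 (prod_nonneg fun _ _ => norm_nonneg _) zero_le_one
        _ = Real.log N ^ (2 * r) := one_mul _
        _ ≤ _ := pow_le_pow_right₀ hLog1 (by omega))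
  refine ⟨S, h2, h3, fun m I hI q hq hq2 c X hX => ?_⟩
  refine le_trans (le_of_eq ?_) (h4 m I hI q hq (hq2.trans hκ) c X hX)
  congr 1
  unfold corrSum
  apply sum_congr rfl
  intro n _
  congr 1
  apply prod_congr rfl
  intro i _
  unfold lam Pool.Agent.Y885.laR
  push_cast
  rfl

end Pool.Agent.Results.MP_e6fa8b_nt.ElementsOfAnySets
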