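import Pool.Agent.Q26.PD.Corr

/-!
# Joint correlations of the von Mangoldt and Liouville functions with a palindromic shift

Definitions used (all in `Pool.Agent.TH872.Tr`): `num b k E`: the number of the palindromes with exactly `k` digits in
base `b` which have the property `E`; `value b k κ c d z`: the integer `c + κ v`, where `v` has the pair of digits
`d i` at the positions `i` and `k - 1 - i`, for `i < k / 2`, and, if `k` is odd, the middle digit `z`;
`Prob b k w u E`: the probability of the event `E` if the pairs `d i` and `z` are chosen independently of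
each other with the distributions `w i` and `u`; `Pairs b k η w`: the `w i` are distributions of pairs of
digits, and two independent copies of the pair number `i` (`i ≥ 1`) differ in both digits with a
probability of at least `η`.
-/

set_option autoImplicit false

namespace Pool.Agent.Results.MP_e6fa8b_nt.PalindromicShifts

open Finset Pool.Agent.TH872.Tr

/-- The Liouville function on the integers, `0` at the integers `m ≤ 0`, with complex values. -/
noncomputable def lam (m : ℤ) : ℂ := if 1 ≤ m then (-1) ^ ArithmeticFunction.cardFactors m.toNat else 0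

/-- `|∑ n ≤ N, θ l n * (∏ i, Λ (a l i * n + h l i)) * λ (α l * n + y)| ≤ δ` for all `l` and all `N` with
`α l * N ≤ M`. -/
def Small (M : ℕ) (δ : ℝ) {L r : ℕ} (α : Fin L → ℕ) (a h : Fin L → Fin r → ℕ) (θ : Fin L → ℕ → ℂ) (y : ℤ) : Prop :=
  ∀ l, ∀ N : ℕ, α l * N ≤ M →
    ‖∑ n ∈ Icc 1 N, θ l n * (∏ i, (ArithmeticFunction.vonMangoldt (a l i * n + h l i) : ℂ)) * lam (α l * n + y)‖ ≤ δ

/-- Let `r`, `b ≥ 2`, `B`, `T`, `U`, `κ ≠ 0` and `η > 0` be fixed and let `k` be large. Let `c` be an arbitrary
integer with `|c| ≤ B b ^ k`. For each of at most `k ^ T` indices `l` let `α l ≥ 1`, let `a l i n + h l i` for `i < r`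
be arbitrary linear forms with non-negative coefficients `≤ b ^ (B k)`, and let `θ l : ℕ → ℂ` be an arbitrary function
bounded by `1` (for example a product `∏ j, λ (n + h' j)`).

(1) All the palindromes `v` with `k` digits in base `b`, up to a proportion of at most `1 / k ^ U` of them, have
the following property: the shift `y = c + κ v` satisfies
`|∑ n ≤ N, θ l n * (∏ i, Λ (a l i * n + h l i)) * λ (α l * n + y)| ≤ b ^ k / k ^ U` for all `l` and all
`N ≤ B b ^ k / α l`.

(2) More generally, let `v` be a random integer with `k` digits in base `b`, such that the pairs formed by the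
digits at the positions `i` and `k - 1 - i` are independent of each other for different `i`. Inside of a pair the
digits may depend on each other in an arbitrary way; the distributions of the pairs are arbitrary (and
depend on the position and on `k`), only two independent copies of a pair (with `i ≥ 1`) should differ in
both digits with a probability of at least `η`. Then `y = c + κ v` has the property of (1) with a probability of at
least `1 - 1 / k ^ U`. -/
theorem result (r b B T U : ℕ) (hb : 2 ≤ b) (κ : ℤ) (hκ : κ ≠ 0) (η : ℝ) (hη : 0 < η) :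
    ∃ k₀ : ℕ, ∀ k : ℕ, k₀ ≤ k → ∀ c : ℤ, |c| ≤ B * (b : ℤ) ^ k →
      ∀ L : ℕ, L ≤ k ^ T → ∀ (α : Fin L → ℕ) (a h : Fin L → Fin r → ℕ) (θ : Fin L → ℕ → ℂ),
        (∀ l, 1 ≤ α l) → (∀ l i, a l i ≤ b ^ (B * k) ∧ h l i ≤ b ^ (B * k)) → (∀ l n, ‖θ l n‖ ≤ 1) →
      (num b k (fun v => ¬ Small (B * b ^ k) ((b : ℝ) ^ k / (k : ℝ) ^ U) α a h θ (c + κ * v)) : ℝ) ≤
        num b k (fun _ => True) / (k : ℝ) ^ U ∧
      ∀ (w : ℕ → ℕ × ℕ → ℝ) (u : ℕ → ℝ), Pairs b k η w → (∀ a, 0 ≤ u a) → ∑ a ∈ range b, u a = 1 →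
        Prob b k w u (fun d z => ¬ Small (B * b ^ k) ((b : ℝ) ^ k / (k : ℝ) ^ U) α a h θ (value b k κ c d z)) ≤
          1 / (k : ℝ) ^ U := by
  classical
  obtain ⟨k₀, h0⟩ := Pool.Agent.Q26.PD.mir_corr b B (T + 2 * r) U hb κ hκ Pool.Agent.H373R2.T7.liR
    Pool.Agent.W93.LM.nice_liR η hη
  obtain ⟨k1, hk1⟩ := Pool.Agent.Q26.PD.vM_bound b B hb
  refine ⟨k₀ + k1 + 1, fun k hk c hc L hL α a h θ hα hah hθ => ?_⟩
  have hkr : (1 : ℝ) ≤ (k : ℝ) := by exact_mod_cast (by omega : 1 ≤ k)
  have h1 := h0 k (by omega) c hc (fun Y => ¬ Small (B * b ^ k) ((b : ℝ) ^ k / (k : ℝ) ^ U) α a h θ Y)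
    ⟨L, by
      have h2 : (L : ℝ) ≤ (k : ℝ) ^ T := by exact_mod_cast hL
      exact h2.trans (pow_le_pow_right₀ hkr (by omega)), fun l => if h : l < L then α ⟨l, h⟩ else 1,
      fun l => if hl : l < L then (fun n => θ ⟨l, hl⟩ n *
        ∏ i, (ArithmeticFunction.vonMangoldt (a ⟨l, hl⟩ i * n + h ⟨l, hl⟩ i) : ℂ)) else fun _ => 0, by
      intro l hl
      simp only [hl, dif_pos]
      exact hα _, by
      intro l hl n hn1 hn2
      simp only [hl, dif_pos] at hn2 ⊢
      rw [norm_mul, norm_prod]
      have hnB : n ≤ B * b ^ k := (Nat.le_mul_of_pos_left _ (hα ⟨l, hl⟩)).trans hn2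
      have e1 : ∏ i, ‖(ArithmeticFunction.vonMangoldt (a ⟨l, hl⟩ i * n + h ⟨l, hl⟩ i) : ℂ)‖ ≤ ∏ _i : Fin r, (k : ℝ) ^ 2 := by
        apply prod_le_prod (fun _ _ => norm_nonneg _)
        intro i _
        rw [Complex.norm_real, Real.norm_eq_abs]
        exact hk1 k (by omega) _ _ _ (hah _ i).1 (hah _ i).2 hnB
      rw [prod_const, card_univ, Fintype.card_fin, ← pow_mul] at e1
      calc _ ≤ 1 * (k : ℝ) ^ (2 * r) := mul_le_mul (hθ _ n) e1 (prod_nonneg fun _ _ => norm_nonneg _) zero_le_one
        _ = (k : ℝ) ^ (2 * r) := one_mul _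
        _ ≤ _ := pow_le_pow_right₀ hkr (by omega), by
      intro Y hY
      unfold Small at hY
      push Not at hY
      obtain ⟨l, N, hN, h2⟩ := hY
      refine ⟨l, l.2, N, by simp only [l.2, dif_pos]; exact hN, ?_⟩
      have e0 : ((b ^ k : ℕ) : ℝ) = (b : ℝ) ^ k := by push_cast; rfl
      rw [e0]
      refine lt_of_lt_of_eq h2 ?_
      simp only [l.2, dif_pos]
      congr 1⟩
  exact ⟨h1.2, h1.1⟩

end Pool.Agent.Results.MP_e6fa8b_nt.PalindromicShifts
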