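import Pool.Agent.Q25.NDig
import Pool.Agent.Q25.RDig1

set_option autoImplicit false

/-!
# Joint correlations of the von Mangoldt and Liouville functions over integers with independent random digits

The digits of `m < b ^ k` in base `b` are independent random variables with arbitrary distributions, no digit having a
probability larger than `1 - η` (for instance, `m` may be a random integer with restricted digits). For almost all
vectors `h` of shifts of the order of `b ^ k` all the expectations of the products of the problem are the predicted ones.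

From the starting files: `Pool.Agent.TH872.Sq` (the second moments over the constant terms of sums over integers with
random digits), `Pool.Agent.W93.LM` (the Liouville function in major arcs), `Pool.Agent.H807R2.Dav` (Davenport).
-/

namespace Pool.Agent.Results.MP_e6fa8b_nt.RandomDigitArguments

open Finset

/-- `w i d` is the probability that the digit number `i` is equal to `d`; no digit has a probability larger than
`1 - η` -/
structure Digits (b : ℕ) (η : ℝ) (w : ℕ → ℕ → ℝ) : Prop where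
  nonneg : ∀ i d, 0 ≤ w i d
  sum : ∀ i, ∑ d ∈ range b, w i d = 1
  le : ∀ i d, w i d ≤ 1 - η

/-- the probability of the integer `m < b ^ k`, the product of the probabilities of its digits -/
noncomputable def weight (b : ℕ) (w : ℕ → ℕ → ℝ) (k m : ℕ) : ℝ := ∏ i ∈ range k, w i (m / b ^ i % b)

open Classical in
/-- the probability that `m < b ^ k` has the property `S` -/
noncomputable def prob (b : ℕ) (w : ℕ → ℕ → ℝ) (k : ℕ) (S : ℕ → Prop) : ℝ :=
  ∑ m ∈ (range (b ^ k)).filter S, weight b w k m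

/-- the Liouville function -/
noncomputable def lam (n : ℕ) : ℝ := (-1) ^ ArithmeticFunction.cardFactors n

/-- the expectation of `G(m) ∏_{j ∈ A} Λ(m + h_j) ∏_{j ∈ T} λ(m + h_j)` -/
noncomputable def corr (b : ℕ) (w : ℕ → ℕ → ℝ) (k : ℕ) {r : ℕ} (h : Fin r → ℕ) (A T : Finset (Fin r)) (G : ℕ → ℝ) : ℝ :=
  ∑ m ∈ range (b ^ k), weight b w k m *
    (G m * ((∏ j ∈ A, ArithmeticFunction.vonMangoldt (m + h j)) * ∏ j ∈ T, lam (m + h j)))

/-- the primes up to `z` -/
def primes (z : ℕ) : Finset ℕ := (Icc 1 z).filter Nat.Prime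

/-- the number of the residues `t` modulo `p` at which `p` divides one of the `t + h_j` -/
def nu {r : ℕ} (h : Fin r → ℕ) (p : ℕ) : ℕ := ((range p).filter (fun t : ℕ => ∃ j, p ∣ t + h j)).card

/-- the singular series: the factor at the primes up to the base `b` (which sees the distribution of the digits), and the
product over the primes `p` with `b < p ≤ z` of `(1 - ν(p) / p) / (1 - 1 / p) ^ r` -/
noncomputable def sigma (b : ℕ) (w : ℕ → ℕ → ℝ) (k z : ℕ) {r : ℕ} (h : Fin r → ℕ) : ℝ :=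
  (∏ p ∈ primes b, (1 - 1 / (p : ℝ)))⁻¹ ^ r *
    prob b w k (fun m => ∀ p ∈ primes b, ∀ j, ¬ p ∣ m + h j) *
    ∏ p ∈ (primes z).filter (fun p => b < p), ((1 - (nu h p : ℝ) / p) / (1 - 1 / (p : ℝ)) ^ r)

/-- all the expectations with at least one factor `λ` (at most `r` factors in all, and any of the weights `G l`) are at
most `k ^ (-U)`, and the expectation of `∏ Λ(m + h_j)` is the singular series up to `k ^ (-U)` -/
def Good (b : ℕ) (w : ℕ → ℕ → ℝ) (k z U : ℕ) {r L : ℕ} (G : Fin L → ℕ → ℝ) (h : Fin r → ℕ) : Prop :=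
  (∀ l, ∀ A T : Finset (Fin r), Disjoint A T → T.Nonempty → |corr b w k h A T (G l)| ≤ 1 / (k : ℝ) ^ U) ∧
  |corr b w k h univ ∅ (fun _ => 1) - sigma b w k z h| ≤ 1 / (k : ℝ) ^ U

section aux
open Pool.Agent.TH872.Sq Pool.Agent.Q25.RDig
open Pool.Agent.H373R2.T7 (pz Vz mem_pz)

lemma val_eq (c m : ℕ) : qv 0 1 m + (c : ℤ) = ((m + c : ℕ) : ℤ) := by
  unfold qv; push_cast; ring

lemma nu_eq {r : ℕ} (c : Fin r → ℕ) (p : ℕ) :
    Pool.Agent.TH872.Sq.nu (fun _ => 0) (fun _ => 1) (fun j => (c j : ℤ)) p = nu c p := by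
  unfold Pool.Agent.TH872.Sq.nu nu
  congr 1
  apply filter_congr
  intro t _
  apply exists_congr
  intro j
  have e : (0 : ℤ) * (t : ℤ) ^ 2 + 1 * t + (c j : ℤ) = ((t + c j : ℕ) : ℤ) := by push_cast; ring
  rw [e, Int.natCast_dvd_natCast]

lemma Sg_eq' (b : ℕ) (w : ℕ → ℕ → ℝ) (k : ℕ) {r : ℕ} (c : Fin r → ℕ) (z : ℕ) (hz : b ≤ z) :
    Sg b w 0 k (fun _ => 0) (fun _ => 1) (fun j => (c j : ℤ)) z = sigma b w k z c := by
  rw [Sg_split b w k _ _ _ z hz]
  unfold sigma prob P weight
  simp only [zero_add, nu_eq]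
  have h1 : ∑ n ∈ (range (b ^ k)).filter (fun n : ℕ => ∀ p ∈ pz b, ¬ ∃ j, (p : ℤ) ∣ 0 * (n : ℤ) ^ 2 + 1 * n + (c j : ℤ)),
      ∏ x ∈ range k, w x (n / b ^ x % b) = ∑ n ∈ @Finset.filter ℕ (fun m => ∀ p ∈ primes b, ∀ j, ¬ p ∣ m + c j)
        (fun n => Classical.propDecidable _) (range (b ^ k)), ∏ x ∈ range k, w x (n / b ^ x % b) := by
    refine sum_congr (Finset.ext fun n => ?_) (fun _ _ => rfl)
    simp only [mem_filter, not_exists]
    apply and_congr_right
    intro _
    apply forall₂_congr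
    intro p _
    apply forall_congr'
    intro j
    have e : (0 : ℤ) * (n : ℤ) ^ 2 + 1 * n + (c j : ℤ) = ((n + c j : ℕ) : ℤ) := by push_cast; ring
    rw [e, Int.natCast_dvd_natCast]
  rw [h1]
  rfl

end aux

open Classical in
/-- **The joint correlations of `Λ` and `λ` over integers with independent random digits.** Let `b ≥ 2`, `η > 0`, `r`, `F`,
`U` and `K` be fixed, let `B` be large in terms of them, `E` arbitrary, let `k` be large in terms of all of them and let
`k ^ B ≤ z ≤ k ^ E`. Let the digits of `m < b ^ k` be independent, with arbitrary distributions giving to no digit a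
probability larger than `1 - η`, let `b ^ k ≤ X_j ≤ F b ^ k`, and let `G_l`, `l < L ≤ k ^ K`, be arbitrary functions bounded
by `1`. For all the vectors `h` with `1 ≤ h_j ≤ X_j`, with at most `(∏ X_j) / k ^ U` exceptions:
`|E G_l(m) ∏_{j ∈ A} Λ(m + h_j) ∏_{j ∈ T} λ(m + h_j)| ≤ k ^ (-U)` for all `l` and all disjoint sets `A`, `T` of indices
with nonempty `T`, and `E ∏_j Λ(m + h_j)` is the singular series up to `k ^ (-U)`. -/
theorem result (b : ℕ) (hb : 2 ≤ b) (η : ℝ) (hη : 0 < η) (r : ℕ) (F U K : ℕ) :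
    ∃ B : ℕ, ∀ E : ℕ, ∃ K₀ : ℕ, ∀ k : ℕ, K₀ ≤ k → ∀ z : ℕ, (k : ℝ) ^ B ≤ z → (z : ℝ) ≤ (k : ℝ) ^ E →
    ∀ w : ℕ → ℕ → ℝ, Digits b η w → ∀ X : Fin r → ℕ, (∀ j, b ^ k ≤ X j ∧ X j ≤ F * b ^ k) →
    ∀ L : ℕ, L ≤ k ^ K → ∀ G : Fin L → ℕ → ℝ, (∀ l n, |G l n| ≤ 1) →
    (((Fintype.piFinset (fun j : Fin r => Icc 1 (X j))).filter (fun h => ¬ Good b w k z U G h)).card : ℝ) ≤
      (∏ j, (X j : ℝ)) / (k : ℝ) ^ U := by
  have hnice : Pool.Agent.W93.LM.Nice (fun n => ((lam n : ℝ) : ℂ)) := by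
    have h1 : (fun n => ((lam n : ℝ) : ℂ)) = Pool.Agent.H373R2.T7.liR := by
      funext n
      unfold lam Pool.Agent.H373R2.T7.liR
      push_cast
      rfl
    rw [h1]
    exact Pool.Agent.W93.LM.nice_liR
  have hld : ∀ _j : Fin r, Pool.Agent.TH872.Sq.ld 0 1 ≠ 0 := fun j => by
    unfold Pool.Agent.TH872.Sq.ld
    rw [if_pos rfl]
    norm_num
  choose! n0 hn0 using fun (AT : Finset (Fin r) × Finset (Fin r)) (hT : AT.2.Nonempty) =>
    Pool.Agent.Q25.NDig.gen b hb η hη r (fun _ => 0) (fun _ => 1) hld (AT.1 ∪ AT.2) AT.2 hT subset_union_right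
      (fun j n => if j ∈ AT.2 then lam n else ArithmeticFunction.vonMangoldt n)
      (fun j hj => by simp only [if_pos hj]; exact hnice) (fun j hj n => by
        simp only [if_neg hj]
        exact ⟨Pool.Agent.TH872.Sq.th_le n, le_rfl⟩) F (U + 1) K
  obtain ⟨B, hB⟩ := Pool.Agent.TH872.Sq.main_vm_w b hb η hη r (fun _ => 0) (fun _ => 1) hld
    (fun _ => ArithmeticFunction.vonMangoldt) (fun _ n => ⟨Pool.Agent.TH872.Sq.th_le n, le_rfl⟩) F (U + 1)
  refine ⟨B + 1, fun E => ?_⟩
  obtain ⟨k1, hk1'⟩ := hB E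
  refine ⟨∑ AT : Finset (Fin r) × Finset (Fin r), n0 AT + (4 ^ r + 1) + k1 + b + 1, fun k hk z hz1 hz2 w hw X hX L hL G hG => ?_⟩
  have hks : ∑ AT : Finset (Fin r) × Finset (Fin r), n0 AT ≤ k ∧ 4 ^ r + 1 ≤ k ∧ 1 ≤ k ∧ k1 ≤ k ∧ b ≤ k := by
    generalize 4 ^ r = M at hk
    omega
  have hk1 : (1 : ℝ) ≤ k := by exact_mod_cast hks.2.2.1
  have hk0 : (0 : ℝ) < k := by linarith
  have hk2 : (4 : ℝ) ^ r + 1 ≤ k := by exact_mod_cast hks.2.1
  have hbz : b ≤ z := by
    have h4 : (k : ℝ) ≤ (k : ℝ) ^ (B + 1) := le_self_pow₀ hk1 (by omega)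
    have h5 : (k : ℝ) ≤ z := h4.trans hz1
    have h6 : k ≤ z := by exact_mod_cast h5
    exact hks.2.2.2.2.trans h6
  -- the bad vectors
  set Bad : Finset (Fin r) × Finset (Fin r) → Finset (Fin r → ℕ) := fun AT => (Fintype.piFinset (fun j : Fin r => Icc 1 (X j))).filter
    (fun h => ∃ l, Disjoint AT.1 AT.2 ∧ 1 / (k : ℝ) ^ U < |corr b w k h AT.1 AT.2 (G l)|) with hBad
  have hcard : ∀ AT ∈ (univ : Finset (Finset (Fin r) × Finset (Fin r))).filter (fun AT => AT.2.Nonempty),
      ((Bad AT).card : ℝ) ≤ (∏ j, (X j : ℝ)) / (k : ℝ) ^ (U + 1) := by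
    intro AT hAT
    have hI' := (mem_filter.1 hAT).2
    refine hn0 AT hI' k ?_ w ⟨hw.nonneg, hw.sum, hw.le⟩ (fun _ => 1) (fun _ => Or.inl rfl) X (fun j => by
      rw [Pool.Agent.TH872.Sq.dg_zero, one_mul]; exact hX j) L hL G hG (fun _ _ => 1) (fun _ _ => by norm_num) _ ?_
    · exact (single_le_sum (f := n0) (fun _ _ => Nat.zero_le _) (mem_univ AT)).trans hks.1
    · rintro h hh ⟨l, hdis, hl⟩
      refine ⟨l, lt_of_le_of_lt ?_ (lt_of_lt_of_le hl (le_of_eq ?_))⟩
      · apply div_le_div_of_nonneg_left zero_le_one (by positivity)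
        exact pow_le_pow_right₀ hk1 (by omega)
      · congr 1
        unfold corr Pool.Agent.Q25.NDig.Sm weight Pool.Agent.TH872.Sq.P
        apply sum_congr rfl
        intro m _
        simp only [zero_add]
        congr 2
        rw [← prod_filter_mul_prod_filter_not univ (fun j => j ∈ AT.1 ∪ AT.2)]
        have e1 : (univ.filter (fun j => j ∈ AT.1 ∪ AT.2)) = AT.1 ∪ AT.2 := by ext j; simp
        rw [e1]
        have e2 : ∏ x ∈ univ.filter (fun x => x ∉ AT.1 ∪ AT.2), (if x ∈ AT.1 ∪ AT.2 then Pool.Agent.TH872.Sq.fx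
            (fun n => if x ∈ AT.2 then lam n else ArithmeticFunction.vonMangoldt n) (Pool.Agent.TH872.Sq.qv 0 1 m + 1 * (h x : ℤ)) else (1 : ℝ)) = 1 := by
          apply prod_eq_one
          intro x hx
          rw [if_neg (mem_filter.1 hx).2]
        rw [e2, mul_one, prod_union hdis]
        have e5 : ∀ j (f : ℕ → ℝ), Pool.Agent.TH872.Sq.fx f (Pool.Agent.TH872.Sq.qv 0 1 m + 1 * (h j : ℤ)) = f (m + h j) := by
          intro j f
          have e4 := (mem_Icc.1 (Fintype.mem_piFinset.1 hh j)).1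
          unfold Pool.Agent.TH872.Sq.fx
          rw [one_mul, val_eq, if_pos (by exact_mod_cast (by omega : 1 ≤ m + h j)), Int.toNat_natCast]
        congr 1
        · apply prod_congr rfl
          intro j hj
          rw [if_pos (mem_union_left _ hj), e5, if_neg (disjoint_left.1 hdis hj)]
        · apply prod_congr rfl
          intro j hj
          rw [if_pos (mem_union_right _ hj), e5, if_pos hj]
  set Bad0 : Finset (Fin r → ℕ) := (Fintype.piFinset (fun j : Fin r => Icc 1 (X j))).filter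
    (fun h => 1 / (k : ℝ) ^ U < |corr b w k h univ ∅ (fun _ => 1) - sigma b w k z h|) with hBad0
  have hcard0 : (Bad0.card : ℝ) ≤ (∏ j, (X j : ℝ)) / (k : ℝ) ^ (U + 1) := by
    refine hk1' k hks.2.2.2.1 z ((pow_le_pow_right₀ hk1 (Nat.le_succ B)).trans hz1) hz2 w ⟨hw.nonneg, hw.sum, hw.le⟩ 0
      (fun _ => 1) (fun _ => Or.inl rfl) X (fun j => by rw [Pool.Agent.TH872.Sq.dg_zero, one_mul]; exact hX j) _ ?_
    intro h hh hl
    simp only [one_mul]
    refine ⟨fun j n _ => ?_, ?_⟩
    · have h3 := (mem_Icc.1 (Fintype.mem_piFinset.1 hh j)).1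
      rw [val_eq]
      exact_mod_cast (by omega : 1 ≤ n + h j)
    · rw [Sg_eq' b w k h z hbz]
      have e1 : ∑ n ∈ range (b ^ k), Pool.Agent.TH872.Sq.P b w 0 k n *
          ∏ j, Pool.Agent.TH872.Sq.fx (ArithmeticFunction.vonMangoldt) (Pool.Agent.TH872.Sq.qv 0 1 n + (h j : ℤ)) =
          corr b w k h univ ∅ (fun _ => 1) := by
        unfold corr weight Pool.Agent.TH872.Sq.P
        apply sum_congr rfl
        intro m _
        simp only [zero_add, one_mul, prod_empty, mul_one]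
        congr 1
        apply prod_congr rfl
        intro j _
        have e4 := (mem_Icc.1 (Fintype.mem_piFinset.1 hh j)).1
        unfold Pool.Agent.TH872.Sq.fx
        rw [val_eq, if_pos (by exact_mod_cast (by omega : 1 ≤ m + h j)), Int.toNat_natCast]
      rw [e1]
      refine lt_of_le_of_lt ?_ hl
      apply div_le_div_of_nonneg_left zero_le_one (by positivity)
      exact pow_le_pow_right₀ hk1 (by omega)
  have hsub : (Fintype.piFinset (fun j : Fin r => Icc 1 (X j))).filter (fun h => ¬ Good b w k z U G h) ⊆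
      (((univ : Finset (Finset (Fin r) × Finset (Fin r))).filter (fun AT => AT.2.Nonempty)).biUnion Bad) ∪ Bad0 := by
    intro h hh
    rw [mem_filter] at hh
    by_contra hcon
    rw [mem_union, not_or] at hcon
    apply hh.2
    refine ⟨fun l A T hdis hT => ?_, ?_⟩
    · by_contra hb'
      push Not at hb'
      apply hcon.1
      rw [mem_biUnion]
      exact ⟨(A, T), mem_filter.2 ⟨mem_univ _, hT⟩, mem_filter.2 ⟨hh.1, l, hdis, hb'⟩⟩
    · by_contra hb'
      push Not at hb'
      exact hcon.2 (mem_filter.2 ⟨hh.1, hb'⟩)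
  have hfin : (((Fintype.piFinset (fun j : Fin r => Icc 1 (X j))).filter (fun h => ¬ Good b w k z U G h)).card : ℝ) ≤
      ∑ AT ∈ (univ : Finset (Finset (Fin r) × Finset (Fin r))).filter (fun AT => AT.2.Nonempty), ((Bad AT).card : ℝ) + Bad0.card := by
    rw [← Nat.cast_sum, ← Nat.cast_add]
    refine Nat.cast_le.2 ((card_le_card hsub).trans ((card_union_le _ _).trans ?_))
    exact Nat.add_le_add_right card_biUnion_le _
  refine hfin.trans ((add_le_add (sum_le_sum hcard) hcard0).trans ?_)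
  rw [sum_const, nsmul_eq_mul]
  have h7 : ((((univ : Finset (Finset (Fin r) × Finset (Fin r))).filter (fun AT => AT.2.Nonempty)).card : ℕ) : ℝ) ≤ 4 ^ r := by
    have : ((univ : Finset (Finset (Fin r) × Finset (Fin r))).filter (fun AT => AT.2.Nonempty)).card ≤ 4 ^ r := by
      refine (card_filter_le _ _).trans ?_
      rw [card_univ, Fintype.card_prod, Fintype.card_finset, Fintype.card_fin, ← mul_pow]
      norm_num
    exact_mod_cast this
  have h8 : 0 ≤ (∏ j, (X j : ℝ)) / (k : ℝ) ^ (U + 1) := div_nonneg (prod_nonneg fun _ _ => Nat.cast_nonneg _) (by positivity)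
  have h9 : ((((univ : Finset (Finset (Fin r) × Finset (Fin r))).filter (fun AT => AT.2.Nonempty)).card : ℕ) : ℝ) + 1 ≤ k := by
    linarith
  calc ((((univ : Finset (Finset (Fin r) × Finset (Fin r))).filter (fun AT => AT.2.Nonempty)).card : ℕ) : ℝ) *
        ((∏ j, (X j : ℝ)) / (k : ℝ) ^ (U + 1)) + (∏ j, (X j : ℝ)) / (k : ℝ) ^ (U + 1)
      = (((((univ : Finset (Finset (Fin r) × Finset (Fin r))).filter (fun AT => AT.2.Nonempty)).card : ℕ) : ℝ) + 1) *
        ((∏ j, (X j : ℝ)) / (k : ℝ) ^ (U + 1)) := by ring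
    _ ≤ k * ((∏ j, (X j : ℝ)) / (k : ℝ) ^ (U + 1)) := mul_le_mul_of_nonneg_right h9 h8
    _ = _ := by rw [pow_succ]; field_simp

end Pool.Agent.Results.MP_e6fa8b_nt.RandomDigitArguments
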